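import Mathlib
import Pool.Agent.Y20.EA.Dense

/-!
# MP_2bb948: generic bi-invariant metrics on sofic groups, relative to a subgroup

Stronger form of `GenericGroupExtremelyAmenable` (which is the case `K = F_∞`, `Γ = 1`, values in
`[0, 1]`).
-/

set_option autoImplicit false

namespace Pool.Agent.Results.MP_2bb948_al.SoficRelativeGeneric

open Set Filter Topology

universe u

/-- `K` is sofic: finitely many elements act, up to a proportion `δ` of the points, on a finite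
nonempty set by permutations, multiplicatively and without fixed points. -/
def IsSofic (K : Type) [Group K] : Prop :=
  ∀ (E : Finset K) (δ : ℝ), 0 < δ → ∃ (n : ℕ) (σ : K → Equiv.Perm (Fin n)), 0 < n ∧
    (∀ x ∈ E, ∀ y ∈ E, (Nat.card {i // σ (x * y) i ≠ σ x (σ y i)} : ℝ) ≤ δ * n) ∧
    ∀ x ∈ E, x ≠ 1 → (Nat.card {i // σ x i = i} : ℝ) ≤ δ * n

/-- `K` is residually finite. -/
def IsResiduallyFinite (K : Type) [Group K] : Prop :=
  ∀ x : K, x ≠ 1 → ∃ (Q : Type) (_ : Group Q) (_ : Finite Q) (q : K →* Q), q x ≠ 1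

/-- `K` has room over the subgroup `Γ`: for every finite subset `A` of `K` and every `r` there are
`g₁, …, g_r` in `K` which can be mapped to arbitrary elements of `K` by endomorphisms of `K` that
fix `Γ` and `A` pointwise. -/
def HasRoom (K : Type) [Group K] (Γ : Subgroup K) : Prop :=
  ∀ (A : Finset K) (r : ℕ), ∃ g : Fin r → K, ∀ k : Fin r → K, ∃ φ : K →* K,
    (∀ a ∈ Γ, φ a = a) ∧ (∀ a ∈ A, φ a = a) ∧ ∀ j, φ (g j) = k j

/-- `K` is relatively free with the basis `x₀, x₁, …`: the `x_i` generate `K` and every map of the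
basis to `K` extends to an endomorphism of `K`. -/
def IsRelativelyFree (K : Type) [Group K] (x : ℕ → K) : Prop :=
  Subgroup.closure (range x) = ⊤ ∧ ∀ f : ℕ → K, ∃ φ : K →* K, ∀ i, φ (x i) = f i

/-- `ρ` is a bi-invariant metric on `K`. -/
def IsBiMetric {K : Type} [Group K] (ρ : K → K → ℝ) : Prop :=
  (∀ g h, ρ g h = 0 ↔ g = h) ∧ (∀ g h, ρ g h = ρ h g) ∧ (∀ g h k, ρ g k ≤ ρ g h + ρ h k) ∧
    (∀ g h k, ρ (k * g) (k * h) = ρ g h) ∧ ∀ g h k, ρ (g * k) (h * k) = ρ g h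

/-- All bi-invariant metrics on `K`, with the topology of pointwise convergence. -/
abbrev AllMetrics (K : Type) [Group K] : Type := {ρ : K → K → ℝ // IsBiMetric ρ}

/-- The bi-invariant metrics on `K` with values in `[0, 1]` (the space `D`, for `K = F_∞`). -/
abbrev MetricsD (K : Type) [Group K] : Type :=
  {ρ : K → K → ℝ // IsBiMetric ρ ∧ ∀ g h, ρ g h ≤ 1}

/-- The bi-invariant metrics on `K` with values in `[0, 1]` that agree with `ρ₀` on the
subgroup `Γ`. -/
abbrev MetricsOver {K : Type} [Group K] (Γ : Subgroup K) (ρ₀ : K → K → ℝ) : Type :=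
  {ρ : K → K → ℝ // IsBiMetric ρ ∧ (∀ g h, ρ g h ≤ 1) ∧ ∀ g ∈ Γ, ∀ h ∈ Γ, ρ g h = ρ₀ g h}

/-- The complete metric group `G` is the completion of `(K, ρ)`, up to an isometric isomorphism. -/
structure IsCompletionOf {K : Type} [Group K] (ρ : K → K → ℝ) (G : Type) [Group G]
    [MetricSpace G] : Prop where
  complete : CompleteSpace G
  left : ∀ a b c : G, dist (c * a) (c * b) = dist a b
  right : ∀ a b c : G, dist (a * c) (b * c) = dist a b
  dense : ∃ φ : K →* G, (∀ g h, dist (φ g) (φ h) = ρ g h) ∧ DenseRange φ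

/-- Every continuous action on a nonempty compact Hausdorff space has a fixed point. -/
def IsExtremelyAmenable (G : Type) [Group G] [TopologicalSpace G] : Prop :=
  ∀ (X : Type u) [TopologicalSpace X] [CompactSpace X] [T2Space X] [Nonempty X] [MulAction G X]
    [ContinuousSMul G X], ∃ x : X, ∀ g : G, g • x = x

/-- The completion of `(K, ρ)` is extremely amenable. -/
def CompletionEA {K : Type} [Group K] (ρ : K → K → ℝ) : Prop :=
  ∀ (G : Type) [Group G] [MetricSpace G], IsCompletionOf ρ G → IsExtremelyAmenable.{u} G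

/-- `G` is the generic group for a space `M` of metrics on `K`: for comeagerly many `ρ` in `M` the
completion of `(K, ρ)` is isometrically isomorphic to `G`. -/
def IsGeneric {K : Type} [Group K] (p : (K → K → ℝ) → Prop) (G : Type) [Group G]
    [MetricSpace G] : Prop :=
  ∀ᶠ ρ : {ρ : K → K → ℝ // p ρ} in residual {ρ : K → K → ℝ // p ρ}, IsCompletionOf ρ.1 G

/-- The space of the metrics with the property `p` is Polish, the completion is extremely amenable
for comeagerly many of them and, if there is at least one such metric, every generic group for this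
space is extremely amenable. -/
def GenericallyEA (K : Type) [Group K] (p : (K → K → ℝ) → Prop) : Prop :=
  PolishSpace {ρ : K → K → ℝ // p ρ} ∧
    (∀ᶠ ρ : {ρ : K → K → ℝ // p ρ} in residual {ρ : K → K → ℝ // p ρ}, CompletionEA.{u} ρ.1) ∧
    ((∃ ρ, p ρ) → ∀ (G : Type) [Group G] [MetricSpace G], IsGeneric p G →
      IsExtremelyAmenable.{u} G)

open Pool.Agent.W335.EA (IsBI Crit ContAct exists_fixed)

theorem isBI_of {K : Type} [Group K] {ρ : K → K → ℝ} (h : IsBiMetric ρ) : IsBI ρ :=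
  ⟨fun g => (h.1 g g).2 rfl, h.2.1, h.2.2.1, h.2.2.2.1, h.2.2.2.2⟩

theorem iff_of {K : Type} [Group K] (ρ : K → K → ℝ) : IsBiMetric ρ ↔
    IsBI ρ ∧ ∀ g h, ρ g h = 0 → g = h := by
  constructor
  · intro h
    exact ⟨isBI_of h, fun g k => (h.1 g k).1⟩
  · rintro ⟨⟨h1, h2, h3, h4, h5⟩, h6⟩
    exact ⟨fun g h => ⟨h6 g h, fun e => by rw [e]; exact h1 h⟩, h2, h3, h4, h5⟩

theorem ea_of_crit {K : Type} [Group K] {ρ : K → K → ℝ} (hB : IsBI ρ)
    (hρ : ∀ F k ε, 0 < ε → Crit ρ F k ε) : CompletionEA.{u} ρ := by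
  intro G _ _ hG X _ _ _ _ _ _
  obtain ⟨φ, hφ, hdense⟩ := hG.dense
  let A : MulAction K X := MulAction.compHom X φ
  have hsmul : ∀ (g : K) (x : X), g • x = φ g • x := fun _ _ => rfl
  have hcont : ContAct ρ X := by
    intro g x U hU hgx
    have h1 : (fun p : G × X => p.1 • p.2) ⁻¹' U ∈ 𝓝 (φ g, x) :=
      continuous_smul.continuousAt.preimage_mem_nhds (hU.mem_nhds hgx)
    rw [nhds_prod_eq, mem_prod_iff] at h1
    obtain ⟨t₁, ht₁, t₂, ht₂, h2⟩ := h1
    obtain ⟨ε, hε, h3⟩ := Metric.mem_nhds_iff.1 ht₁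
    obtain ⟨V, hV, hVo, hxV⟩ := mem_nhds_iff.1 ht₂
    refine ⟨ε, hε, V, hVo, hxV, fun h hgh y hy => ?_⟩
    have h4 : φ h ∈ t₁ := h3 (by rw [Metric.mem_ball, dist_comm, hφ]; exact hgh)
    exact h2 (Set.mk_mem_prod h4 (hV hy))
  obtain ⟨x, hx⟩ := exists_fixed hB hρ hcont
  refine ⟨x, fun g => ?_⟩
  have h1 : IsClosed {g : G | g • x = x} :=
    isClosed_eq (continuous_id.smul continuous_const) continuous_const
  have h2 : range φ ⊆ {g : G | g • x = x} := by
    rintro _ ⟨a, rfl⟩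
    exact hx a
  exact closure_minimal h2 h1 (hdense g)

theorem main {K : Type} [Group K] [Countable K] (hK : IsSofic K) (Γ : Subgroup K)
    (hΓ : HasRoom K Γ) (p : (K → K → ℝ) → Prop) (T : Set (K → K → ℝ)) (hT : IsClosed T)
    (hp : ∀ d, p d ↔ IsBiMetric d ∧ d ∈ T)
    (happ : ∀ d₀, p d₀ → ∀ A : Finset (K × K), ∃ D : ℝ, 1 ≤ D ∧
      (∀ q ∈ A, d₀ q.1 q.2 ≤ D) ∧ ∀ d, (∀ g h, d g h ≤ D) →
        (∀ a ∈ Γ, ∀ b ∈ Γ, d₀ a b ≤ 1 → d a b = d₀ a b) → d ∈ T) :
    GenericallyEA.{u} K p := by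
  have hp' : ∀ d, p d ↔ IsBI d ∧ (∀ g h, d g h = 0 → g = h) ∧ d ∈ T := by
    intro d
    rw [hp, iff_of, and_assoc]
  have hpol := Pool.Agent.Y20.EA.polish hT hp'
  have : BaireSpace {ρ : K → K → ℝ // p ρ} := inferInstance
  have h1 := Pool.Agent.Y20.EA.generic hK Γ hΓ hT hp' happ
  refine ⟨hpol, ?_, fun hne G _ _ hG => ?_⟩
  · filter_upwards [h1] with ρ hρ
    exact ea_of_crit ((hp' ρ.1).1 ρ.2).1 hρ
  · have : Nonempty {ρ : K → K → ℝ // p ρ} := ⟨⟨hne.choose, hne.choose_spec⟩⟩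
    have h2 : ∀ᶠ ρ : {ρ : K → K → ℝ // p ρ} in residual {ρ : K → K → ℝ // p ρ},
      IsCompletionOf ρ.1 G := hG
    obtain ⟨ρ, hρ1, hρ2⟩ := (dense_of_mem_residual (h1.and h2)).nonempty
    exact ea_of_crit ((hp' ρ.1).1 ρ.2).1 hρ1 G hρ2

theorem isClosed_le_one {K : Type} : IsClosed {d : K → K → ℝ | ∀ g h, d g h ≤ 1} := by
  have : {d : K → K → ℝ | ∀ g h, d g h ≤ 1} = ⋂ g, ⋂ h, {d | d g h ≤ 1} := by
    ext d
    exact ⟨fun h1 => mem_iInter.2 fun g => mem_iInter.2 fun h => h1 g h,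
      fun h1 g h => mem_iInter.1 (mem_iInter.1 h1 g) h⟩
  rw [this]
  exact isClosed_iInter fun g => isClosed_iInter fun h => isClosed_le (by fun_prop) continuous_const

theorem isClosed_over {K : Type} [Group K] (Γ : Subgroup K) (ρ₀ : K → K → ℝ) :
    IsClosed {d : K → K → ℝ | ∀ g ∈ Γ, ∀ h ∈ Γ, d g h = ρ₀ g h} := by
  have : {d : K → K → ℝ | ∀ g ∈ Γ, ∀ h ∈ Γ, d g h = ρ₀ g h} =
      ⋂ g ∈ Γ, ⋂ h ∈ Γ, {d | d g h = ρ₀ g h} := by
    ext d
    simp only [mem_iInter, mem_setOf_eq]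
  rw [this]
  exact isClosed_biInter fun g _ => isClosed_biInter fun h _ =>
    isClosed_eq (by fun_prop) continuous_const

theorem exists_discrete (K : Type) [Group K] :
    ∃ ρ : K → K → ℝ, IsBiMetric ρ ∧ ∀ g h, ρ g h ≤ 1 := by
  classical
  refine ⟨fun g h => if g = h then 0 else 1, ⟨?_, ?_, ?_, ?_, ?_⟩, ?_⟩
  · intro g h
    by_cases hgh : g = h <;> simp [hgh]
  · intro g h
    by_cases hgh : g = h
    · simp [hgh]
    · simp [hgh, Ne.symm hgh]
  · intro g h k
    by_cases h1 : g = h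
    · subst h1; simp
    · by_cases h2 : g = k
      · subst h2; simp [h1, Ne.symm h1]
      · by_cases h3 : h = k
        · subst h3; simp
        · simp [h1, h2, h3]
  · intro g h k
    simp
  · intro g h k
    simp
  · intro g h
    by_cases hgh : g = h <;> simp [hgh]

/-- Let `K` be a countable sofic group with room over a subgroup `Γ`. For comeagerly many
bi-invariant metrics on `K`, and for comeagerly many bi-invariant metrics on `K` with values in
`[0, 1]` that agree on `Γ` with a given metric `ρ₀`, the completion is extremely amenable.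
Residually finite groups are sofic; the free product of any group `Γ` and `F_∞` has room over `Γ`;
relatively free groups of infinite rank have room over the trivial subgroup. For `K = F_∞` this
answers the question: the generic group is extremely amenable. -/
theorem result :
    (∀ (K : Type) [Group K] [Countable K] (Γ : Subgroup K), IsSofic K → HasRoom K Γ →
      (∀ ρ₀ : K → K → ℝ, GenericallyEA.{u} K fun ρ => IsBiMetric ρ ∧ (∀ g h, ρ g h ≤ 1) ∧
        ∀ g ∈ Γ, ∀ h ∈ Γ, ρ g h = ρ₀ g h) ∧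
      (GenericallyEA.{u} K fun ρ => IsBiMetric ρ ∧ ∀ g h, ρ g h ≤ 1) ∧
      GenericallyEA.{u} K fun ρ => IsBiMetric ρ) ∧
    (∀ (K : Type) [Group K], IsResiduallyFinite K → IsSofic K) ∧
    (∀ (Γ : Type) [Group Γ], HasRoom (Monoid.Coprod Γ (FreeGroup ℕ))
      (Monoid.Coprod.inl : Γ →* Monoid.Coprod Γ (FreeGroup ℕ)).range) ∧
    (∀ (K : Type) [Group K] (x : ℕ → K), IsRelativelyFree K x → HasRoom K ⊥) ∧
    ((∀ᶠ ρ in residual (MetricsD (FreeGroup ℕ)), CompletionEA.{u} ρ.1) ∧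
      ∀ (G : Type) [Group G] [MetricSpace G],
        (∀ᶠ ρ in residual (MetricsD (FreeGroup ℕ)), IsCompletionOf ρ.1 G) →
          IsExtremelyAmenable.{u} G) := by
  classical
  have hmain : ∀ (K : Type) [Group K] [Countable K] (Γ : Subgroup K), IsSofic K → HasRoom K Γ →
      (∀ ρ₀ : K → K → ℝ, GenericallyEA.{u} K fun ρ => IsBiMetric ρ ∧ (∀ g h, ρ g h ≤ 1) ∧
        ∀ g ∈ Γ, ∀ h ∈ Γ, ρ g h = ρ₀ g h) ∧
      (GenericallyEA.{u} K fun ρ => IsBiMetric ρ ∧ ∀ g h, ρ g h ≤ 1) ∧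
      GenericallyEA.{u} K fun ρ => IsBiMetric ρ := by
    intro K _ _ Γ hK hΓ
    refine ⟨fun ρ₀ => ?_, ?_, ?_⟩
    · refine main hK Γ hΓ _ ({d | ∀ g h, d g h ≤ 1} ∩ {d | ∀ g ∈ Γ, ∀ h ∈ Γ, d g h = ρ₀ g h})
        (isClosed_le_one.inter (isClosed_over Γ ρ₀)) (fun d => Iff.rfl) ?_
      intro d₀ hd₀ A
      refine ⟨1, le_rfl, fun q _ => hd₀.2.1 _ _, fun d hd hd' => ⟨hd, fun g hg h hh => ?_⟩⟩
      rw [hd' g hg h hh (hd₀.2.1 _ _)]
      exact hd₀.2.2 g hg h hh
    · refine main hK Γ hΓ _ {d | ∀ g h, d g h ≤ 1} isClosed_le_one (fun d => Iff.rfl) ?_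
      intro d₀ hd₀ A
      exact ⟨1, le_rfl, fun q _ => hd₀.2 _ _, fun d hd _ => hd⟩
    · refine main hK Γ hΓ _ univ isClosed_univ (fun d => by simp) ?_
      intro d₀ hd₀ A
      obtain ⟨D, hD⟩ := (A.finite_toSet.image fun q : K × K => d₀ q.1 q.2).bddAbove
      exact ⟨max 1 D, le_max_left _ _, fun q hq => (hD ⟨q, hq, rfl⟩).trans (le_max_right _ _),
        fun d _ _ => trivial⟩
  have hrf : ∀ (K : Type) [Group K], IsResiduallyFinite K → IsSofic K := fun K _ h =>
    Pool.Agent.Y20.EA.sofic_of_rf h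
  have hrel : ∀ (K : Type) [Group K] (x : ℕ → K), IsRelativelyFree K x → HasRoom K ⊥ :=
    fun K _ x h => Pool.Agent.Y20.EA.room_of_relFree x h.1 h.2
  have hfree : IsSofic (FreeGroup ℕ) := by
    apply hrf
    intro x hx
    obtain ⟨m, e, he⟩ := Pool.Agent.Helper436.SM.free_rf x hx
    exact ⟨Equiv.Perm (Fin m), inferInstance, inferInstance, FreeGroup.lift e, he⟩
  have hroom : HasRoom (FreeGroup ℕ) ⊥ := by
    refine hrel (FreeGroup ℕ) FreeGroup.of ⟨FreeGroup.closure_range_of ℕ, fun f =>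
      ⟨FreeGroup.lift f, fun i => FreeGroup.lift_apply_of⟩⟩
  obtain ⟨-, hF, -⟩ := hmain (FreeGroup ℕ) ⊥ hfree hroom
  exact ⟨hmain, hrf, fun Γ _ => Pool.Agent.Y20.EA.room_coprod Γ, hrel, hF.2.1,
    fun G _ _ hG => hF.2.2 (exists_discrete _) G hG⟩

end Pool.Agent.Results.MP_2bb948_al.SoficRelativeGeneric
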